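import Mathlib

/-!
# A solution of the limiting Seiberg–Witten equations whose kernel map does not extend

On the flat torus `ℝ³ / ℤ³`, with `L` trivial and `E` of rank `8`, there is a connection `B` and a
solution `(A, Ψ, 0)` of the blown-up Seiberg–Witten equations at `α = 0` over the complement of a
point, such that the kernel map does not extend continuously to the torus.
-/

open Set Filter Topology MeasureTheory Matrix
open scoped ContDiff

noncomputable section

namespace Pool.Agent.Results.MP_92a303_gt.NoExtension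

/-! ## Definitions -/

/-- `ℝ³`. Objects on the flat torus `M = ℝ³ / ℤ³` are `ℤ³`-periodic objects on `ℝ³`. -/
abbrev E3 : Type := Fin 3 → ℝ

/-- `F` is a `ℤ³`-periodic function on `ℝ³`, that is, a function on the torus `ℝ³ / ℤ³`. -/
def Periodic3 {α : Type*} (F : E3 → α) : Prop :=
  ∀ (x : E3) (m : Fin 3 → ℤ), F (x + fun i => (m i : ℝ)) = F x

/-- Clifford multiplication by the basis vectors on the spinors `ℂ²` (that is, `i` times the Pauli
matrices): `γₖ² = -1`, `γⱼ γₖ = -γₖ γⱼ` for `j ≠ k`, and `γ₁ γ₂ γ₃ = 1`. -/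
def gam : Fin 3 → Matrix (Fin 2) (Fin 2) ℂ :=
  ![!![0, Complex.I; Complex.I, 0], !![0, 1; -1, 0], !![Complex.I, 0; 0, -Complex.I]]

/-- The partial derivative `∂ₖ F` of a matrix-valued function. -/
def pd {α β : Type*} (k : Fin 3) (F : E3 → Matrix α β ℂ) (x : E3) : Matrix α β ℂ :=
  Matrix.of fun i j => fderiv ℝ (fun y => F y i j) x (Pi.single k 1)

variable {ι : Type} [Fintype ι] [DecidableEq ι]

/-- The pointwise norm `|Ψ|`. -/
def nrm (M : Matrix (Fin 2) ι ℂ) : ℝ := Real.sqrt (∑ i, ∑ j, ‖M i j‖ ^ 2)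

/-- The twisted Dirac operator on sections of `Hom(E, S ⊗ L)`, where `S = M × ℂ²`,
`L = M × ℂ` with the connection `d + i A`, and `E = M × ℂ^ι` with the connection `d + B`:
`D Ψ = ∑ₖ γₖ (∂ₖ Ψ + i Aₖ Ψ - Ψ Bₖ)`. -/
def dirac (A : Fin 3 → E3 → ℝ) (B : Fin 3 → E3 → Matrix ι ι ℂ) (Ψ : E3 → Matrix (Fin 2) ι ℂ)
    (x : E3) : Matrix (Fin 2) ι ℂ :=
  ∑ k, gam k * (pd k Ψ x + (Complex.I * (A k x : ℂ)) • Ψ x - Ψ x * B k x)

/-- `B` is a smooth `SU(n)`-connection on the trivial bundle `M × ℂ^ι` over the torus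
(`n` is the cardinality of `ι`): the matrices `Bₖ` are skew-Hermitian and traceless. -/
structure IsConnection (B : Fin 3 → E3 → Matrix ι ι ℂ) : Prop where
  smooth : ∀ k i j, ContDiff ℝ ∞ (fun x => B k x i j)
  periodic : ∀ k, Periodic3 (B k)
  skew : ∀ k x, (B k x)ᴴ = -B k x
  trace : ∀ k x, (B k x).trace = 0

/-- `(A, Ψ, 0)` is a solution over `M \ Z` of the blown-up Seiberg–Witten equations, for the flat
torus `M = ℝ³ / ℤ³` and the connection `B` on `E = M × ℂ^ι`, with blow-up set `Z`: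
`Z` is closed and nowhere dense, `d + i A` is a connection on `L = M × ℂ` over `M \ Z`, `Ψ` is
smooth on `M \ Z`, `D_{A ⊗ B} Ψ = 0` and `Ψ Ψ* = (|Ψ|² / 2) id` on `M \ Z`, and `|Ψ|` extends to a
continuous function `h` on `M` with zero set `Z` and `∫_M h² = 1`. -/
structure IsSolution (B : Fin 3 → E3 → Matrix ι ι ℂ) (A : Fin 3 → E3 → ℝ)
    (Ψ : E3 → Matrix (Fin 2) ι ℂ) (Z : Set E3) : Prop where
  closed : IsClosed Z
  nowhereDense : interior Z = ∅
  periodic_Z : Periodic3 (fun x => x ∈ Z)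
  smooth_A : ∀ k, ContDiffOn ℝ ∞ (A k) Zᶜ
  periodic_A : ∀ k, Periodic3 (A k)
  smooth : ∀ i j, ContDiffOn ℝ ∞ (fun x => Ψ x i j) Zᶜ
  periodic : Periodic3 Ψ
  dirac_eq : ∀ x ∉ Z, dirac A B Ψ x = 0
  mu_eq : ∀ x ∉ Z, Ψ x * (Ψ x)ᴴ = ((nrm (Ψ x) ^ 2 / 2 : ℝ) : ℂ) • (1 : Matrix (Fin 2) (Fin 2) ℂ)
  extends_norm : ∃ h : E3 → ℝ, Continuous h ∧ Periodic3 h ∧ (∀ x ∉ Z, h x = nrm (Ψ x)) ∧
    (∀ x, h x = 0 ↔ x ∈ Z) ∧ ∫ x in Icc (0 : E3) 1, h x ^ 2 = 1

/-- `P` is the orthogonal projection onto a subspace of `ℂ^ι` of codimension two. The Grassmannian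
of these subspaces is the space of such matrices `P`. -/
structure IsGr (P : Matrix ι ι ℂ) : Prop where
  idem : P * P = P
  self : Pᴴ = P
  rank : P.rank + 2 = Fintype.card ι

/-- The kernel map `m ↦ ker Ψₘ` extends to a continuous map on `M` with values in the Grassmannian
of subspaces of `ℂ^ι` of codimension two. -/
def KernelMapExtends (Ψ : E3 → Matrix (Fin 2) ι ℂ) (Z : Set E3) : Prop :=
  ∃ P : E3 → Matrix ι ι ℂ, Continuous P ∧ Periodic3 P ∧ (∀ x, IsGr (P x)) ∧
    ∀ x ∉ Z, ∀ v : ι → ℂ, Ψ x *ᵥ v = 0 ↔ P x *ᵥ v = v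

/-! ## Clifford algebra -/

lemma gam_sq (k : Fin 3) : gam k * gam k = -1 := by
  fin_cases k <;> ext i j <;> fin_cases i <;> fin_cases j <;>
    simp [gam, Matrix.mul_apply, Fin.sum_univ_two]

lemma gam_star (k : Fin 3) : (gam k)ᴴ = -gam k := by
  fin_cases k <;> ext i j <;> fin_cases i <;> fin_cases j <;>
    simp [gam, Matrix.conjTranspose_apply]

/-- Clifford multiplication by a real vector. -/
def cl (v : Fin 3 → ℝ) : Matrix (Fin 2) (Fin 2) ℂ := ∑ k, (v k : ℂ) • gam k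

lemma gam_cl (k : Fin 3) (v : Fin 3 → ℝ) :
    gam k * cl v + cl v * gam k = (-2 * (v k : ℂ)) • (1 : Matrix (Fin 2) (Fin 2) ℂ) := by
  fin_cases k <;> ext i j <;> fin_cases i <;> fin_cases j <;>
    simp [gam, cl, Fin.sum_univ_three, Matrix.add_apply] <;>
    ring_nf <;> simp

lemma cl_star (v : Fin 3 → ℝ) : (cl v)ᴴ = -cl v := by
  simp [cl, Matrix.conjTranspose_smul, gam_star, Fin.sum_univ_three]
  abel

lemma sum_gam_gam (X : Matrix (Fin 2) (Fin 2) ℂ) : ∑ k, gam k * (gam k * X) = (-3 : ℂ) • X := by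
  simp only [← mul_assoc, gam_sq, Fin.sum_univ_three]
  ext i j
  simp
  ring

lemma cl_sq (v : Fin 3 → ℝ) :
    cl v * cl v = (-(∑ k, (v k : ℂ) ^ 2)) • (1 : Matrix (Fin 2) (Fin 2) ℂ) := by
  ext i j
  fin_cases i <;> fin_cases j <;>
    simp [gam, cl, Matrix.mul_apply, Fin.sum_univ_two, Fin.sum_univ_three] <;>
    ring_nf <;> simp <;> ring

/-- The matrices `-[γₖ, d] / 4`. -/
def spin (k : Fin 3) (d : Fin 3 → ℝ) : Matrix (Fin 2) (Fin 2) ℂ :=
  (-(1 / 4) : ℂ) • (gam k * cl d - cl d * gam k)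

lemma spin_star (k : Fin 3) (d : Fin 3 → ℝ) : (spin k d)ᴴ = -spin k d := by
  unfold spin
  rw [conjTranspose_smul, conjTranspose_sub, conjTranspose_mul, conjTranspose_mul, gam_star,
    cl_star]
  simp only [neg_mul_neg]
  rw [← smul_neg, neg_sub]
  simp

lemma spin_trace (k : Fin 3) (d : Fin 3 → ℝ) : (spin k d).trace = 0 := by
  unfold spin
  rw [trace_smul, trace_sub, trace_mul_comm (gam k), sub_self, smul_zero]

lemma sum_gam_spin (d : Fin 3 → ℝ) : ∑ k, gam k * spin k d = cl d := by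
  have h1 : ∀ k, gam k * spin k d =
      (-(1 / 4) : ℂ) • ((2 : ℂ) • (gam k * (gam k * cl d)) + (2 * (d k : ℂ)) • gam k) := by
    intro k
    have h := gam_cl k d
    have h2 : cl d * gam k = (-2 * (d k : ℂ)) • (1 : Matrix (Fin 2) (Fin 2) ℂ) - gam k * cl d := by
      rw [← h]
      abel
    unfold spin
    rw [mul_smul_comm, h2, mul_sub, mul_sub, mul_smul_comm, mul_one]
    congr 1
    module
  simp only [h1, ← Finset.smul_sum, Finset.sum_add_distrib, sum_gam_gam]
  have h3 : ∑ k, (2 * (d k : ℂ)) • gam k = (2 : ℂ) • cl d := by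
    simp only [cl, Finset.smul_sum, smul_smul]
  rw [h3]
  module

/-- The connection matrices. -/
def conn (Ψ Θ : Matrix (Fin 2) ι ℂ) (lam kap : ℝ) (d : Fin 3 → ℝ) (k : Fin 3) : Matrix ι ι ℂ :=
  ((kap / lam ^ 2 : ℝ) : ℂ) • (Ψᴴ * spin k d * Ψ) -
    ((1 / (3 * lam) : ℝ) : ℂ) • (Ψᴴ * (gam k * cl d * (Θ - ((kap / lam : ℝ) : ℂ) • Ψ)) -
      (gam k * cl d * (Θ - ((kap / lam : ℝ) : ℂ) • Ψ))ᴴ * Ψ)

omit [Fintype ι] [DecidableEq ι] in
lemma conn_star (Ψ Θ : Matrix (Fin 2) ι ℂ) (lam kap : ℝ) (d : Fin 3 → ℝ) (k : Fin 3) :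
    (conn Ψ Θ lam kap d k)ᴴ = -conn Ψ Θ lam kap d k := by
  unfold conn
  set X := gam k * cl d * (Θ - ((kap / lam : ℝ) : ℂ) • Ψ)
  rw [conjTranspose_sub, conjTranspose_smul, conjTranspose_smul, conjTranspose_sub,
    conjTranspose_mul Ψᴴ X, conjTranspose_mul Xᴴ Ψ, conjTranspose_mul, conjTranspose_mul,
    conjTranspose_conjTranspose, conjTranspose_conjTranspose, spin_star]
  simp only [Complex.star_def, Complex.conj_ofReal, Matrix.neg_mul, Matrix.mul_neg,
    ← Matrix.mul_assoc]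
  module

omit [DecidableEq ι] in
lemma perp {Ψ Θ : Matrix (Fin 2) ι ℂ} {lam kap : ℝ} (hl : lam ≠ 0)
    (h1 : Ψ * Ψᴴ = (lam : ℂ) • (1 : Matrix (Fin 2) (Fin 2) ℂ))
    (h2 : Θ * Ψᴴ = (kap : ℂ) • (1 : Matrix (Fin 2) (Fin 2) ℂ)) :
    (Θ - ((kap / lam : ℝ) : ℂ) • Ψ) * Ψᴴ = 0 := by
  have hlC : (lam : ℂ) ≠ 0 := by exact_mod_cast hl
  rw [Matrix.sub_mul, Matrix.smul_mul, h1, h2, smul_smul]
  push_cast
  rw [div_mul_cancel₀ _ hlC, sub_self]

omit [DecidableEq ι] in
lemma perp2 {Ψ Θ : Matrix (Fin 2) ι ℂ} {lam kap : ℝ} (hl : lam ≠ 0)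
    (h1 : Ψ * Ψᴴ = (lam : ℂ) • (1 : Matrix (Fin 2) (Fin 2) ℂ))
    (h2 : Θ * Ψᴴ = (kap : ℂ) • (1 : Matrix (Fin 2) (Fin 2) ℂ)) (Y : Matrix (Fin 2) (Fin 2) ℂ) :
    Ψ * (Y * (Θ - ((kap / lam : ℝ) : ℂ) • Ψ))ᴴ = 0 := by
  have : (Y * (Θ - ((kap / lam : ℝ) : ℂ) • Ψ) * Ψᴴ)ᴴ = 0 := by
    rw [Matrix.mul_assoc, perp hl h1 h2, Matrix.mul_zero, conjTranspose_zero]
  rwa [conjTranspose_mul, conjTranspose_conjTranspose] at this

omit [DecidableEq ι] in
lemma conn_trace {Ψ Θ : Matrix (Fin 2) ι ℂ} {lam kap : ℝ} (d : Fin 3 → ℝ) (hl : lam ≠ 0)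
    (h1 : Ψ * Ψᴴ = (lam : ℂ) • (1 : Matrix (Fin 2) (Fin 2) ℂ))
    (h2 : Θ * Ψᴴ = (kap : ℂ) • (1 : Matrix (Fin 2) (Fin 2) ℂ)) (k : Fin 3) :
    (conn Ψ Θ lam kap d k).trace = 0 := by
  unfold conn
  rw [trace_sub, trace_smul, trace_smul, trace_sub, Matrix.mul_assoc, trace_mul_comm Ψᴴ,
    Matrix.mul_assoc, h1, trace_mul_comm Ψᴴ, trace_mul_comm _ Ψ, perp2 hl h1 h2, Matrix.mul_assoc,
    perp hl h1 h2]
  simp [spin_trace]

omit [DecidableEq ι] in
lemma conn_spec {Ψ Θ : Matrix (Fin 2) ι ℂ} {lam kap : ℝ} (d : Fin 3 → ℝ) (hl : lam ≠ 0)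
    (h1 : Ψ * Ψᴴ = (lam : ℂ) • (1 : Matrix (Fin 2) (Fin 2) ℂ))
    (h2 : Θ * Ψᴴ = (kap : ℂ) • (1 : Matrix (Fin 2) (Fin 2) ℂ)) :
    ∑ k, gam k * (Ψ * conn Ψ Θ lam kap d k) = cl d * Θ := by
  have hlC : (lam : ℂ) ≠ 0 := by exact_mod_cast hl
  have hΨT := perp2 hl h1 h2
  have h3 : ∀ k, gam k * (Ψ * conn Ψ Θ lam kap d k) =
      ((kap / lam : ℝ) : ℂ) • ((gam k * spin k d) * Ψ) -
        (1 / 3 : ℂ) • ((gam k * (gam k * cl d)) * (Θ - ((kap / lam : ℝ) : ℂ) • Ψ)) := by
    intro k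
    have h4 : Ψ * conn Ψ Θ lam kap d k = ((kap / lam : ℝ) : ℂ) • (spin k d * Ψ) -
        (1 / 3 : ℂ) • (gam k * cl d * (Θ - ((kap / lam : ℝ) : ℂ) • Ψ)) := by
      unfold conn
      rw [Matrix.mul_sub, Matrix.mul_smul, Matrix.mul_smul, Matrix.mul_sub, ← Matrix.mul_assoc Ψ,
        ← Matrix.mul_assoc Ψ, ← Matrix.mul_assoc Ψ, ← Matrix.mul_assoc Ψ, h1, hΨT,
        Matrix.zero_mul, sub_zero,
        Matrix.smul_mul, Matrix.smul_mul, Matrix.smul_mul, Matrix.one_mul, Matrix.one_mul,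
        smul_smul, smul_smul]
      congr 2
      · push_cast
        field_simp
      · push_cast
        field_simp
    rw [h4, Matrix.mul_sub, Matrix.mul_smul, Matrix.mul_smul]
    simp only [Matrix.mul_assoc]
  simp only [h3, Finset.sum_sub_distrib, ← Finset.smul_sum, ← Matrix.sum_mul, sum_gam_spin,
    sum_gam_gam]
  generalize ((kap / lam : ℝ) : ℂ) = c
  simp only [Matrix.mul_sub, Matrix.smul_mul, Matrix.mul_smul]
  module

/-! ## The local model -/

/-- The index set of the rank-eight bundle. -/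
abbrev J8 : Type := (Fin 3 × Fin 2) ⊕ Fin 2

/-- The harmonic spinor-valued functions `xⱼ + (x · γ) γⱼ / 3`, linear in `x`. -/
def Bm (j : Fin 3) (x : E3) : Matrix (Fin 2) (Fin 2) ℂ :=
  (x j : ℂ) • (1 : Matrix (Fin 2) (Fin 2) ℂ) + (1 / 3 : ℂ) • (cl x * gam j)

/-- The `2 × 6` matrix with blocks `Bm j x`. -/
def BB (x : E3) : Matrix (Fin 2) (Fin 3 × Fin 2) ℂ := Matrix.of fun i p => Bm p.1 x i p.2

/-- The square of the Euclidean length. -/
def r2 (x : E3) : ℝ := ∑ k, x k ^ 2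

lemma BB_mul_star (x : E3) :
    BB x * (BB x)ᴴ = ((2 / 3 * r2 x : ℝ) : ℂ) • (1 : Matrix (Fin 2) (Fin 2) ℂ) := by
  have h : BB x * (BB x)ᴴ = ∑ j, Bm j x * (Bm j x)ᴴ := by
    ext i k
    simp [BB, Matrix.mul_apply, Fintype.sum_prod_type, Matrix.sum_apply]
  have h2 : ∀ j, Bm j x * (Bm j x)ᴴ = ((x j : ℂ) ^ 2 / 3) • (1 : Matrix (Fin 2) (Fin 2) ℂ) +
      ((∑ k, (x k : ℂ) ^ 2) / 9) • (1 : Matrix (Fin 2) (Fin 2) ℂ) := by
    intro j
    have hs : (Bm j x)ᴴ = (x j : ℂ) • (1 : Matrix (Fin 2) (Fin 2) ℂ) +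
        (1 / 3 : ℂ) • (gam j * cl x) := by
      unfold Bm
      rw [conjTranspose_add, conjTranspose_smul, conjTranspose_smul, conjTranspose_mul, cl_star,
        gam_star]
      simp
    have h3 : cl x * gam j * (gam j * cl x) =
        (∑ k, (x k : ℂ) ^ 2) • (1 : Matrix (Fin 2) (Fin 2) ℂ) := by
      have : cl x * gam j * (gam j * cl x) = cl x * (gam j * gam j) * cl x := by
        simp only [mul_assoc]
      rw [this, gam_sq, mul_neg_one, neg_mul, cl_sq]
      module
    have h4 := gam_cl j x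
    have h5 : cl x * gam j = (-2 * (x j : ℂ)) • (1 : Matrix (Fin 2) (Fin 2) ℂ) - gam j * cl x := by
      rw [← h4]
      abel
    have h6 : Bm j x * (Bm j x)ᴴ = ((x j : ℂ) ^ 2) • (1 : Matrix (Fin 2) (Fin 2) ℂ) +
        ((x j : ℂ) / 3) • (gam j * cl x + cl x * gam j) +
        (1 / 9 : ℂ) • (cl x * gam j * (gam j * cl x)) := by
      rw [hs, Bm, add_mul, mul_add, mul_add, smul_mul_assoc, smul_mul_assoc, smul_mul_assoc,
        smul_mul_assoc, mul_smul_comm, mul_smul_comm, mul_smul_comm, mul_smul_comm, one_mul,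
        one_mul, mul_one]
      module
    rw [h6, h4, h3]
    module
  rw [h]
  simp only [h2, Finset.sum_add_distrib, ← Finset.sum_smul, r2, ← Finset.sum_div]
  simp only [Finset.sum_const, Finset.card_univ, Fintype.card_fin, ← add_smul]
  congr 1
  push_cast
  simp
  ring

/-- The partial derivatives of `BB`. -/
def KB (k : Fin 3) : Matrix (Fin 2) (Fin 3 × Fin 2) ℂ :=
  Matrix.of fun i p => ((if p.1 = k then (1 : ℂ) else 0) • (1 : Matrix (Fin 2) (Fin 2) ℂ) +
    (1 / 3 : ℂ) • (gam k * gam p.1)) i p.2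

lemma BB_eq (x : E3) (i : Fin 2) (p : Fin 3 × Fin 2) : BB x i p = ∑ k, (x k : ℂ) * KB k i p := by
  obtain ⟨j, m⟩ := p
  simp only [BB, KB, Bm, cl, Matrix.of_apply, Matrix.add_apply, Matrix.smul_apply, smul_eq_mul,
    mul_add, Finset.sum_add_distrib, Finset.sum_mul, Matrix.sum_apply, smul_mul_assoc]
  congr 1
  · simp
  · rw [Finset.mul_sum]
    exact Finset.sum_congr rfl fun k _ => by ring

lemma sum_gam_KB : ∑ k, gam k * KB k = 0 := by
  ext i ⟨j, m⟩
  have h : ∀ k, (gam k * KB k) i (j, m) =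
      ((if j = k then (1 : ℂ) else 0) • gam k + (1 / 3 : ℂ) • (gam k * (gam k * gam j))) i m := by
    intro k
    have : (gam k * KB k) i (j, m) = (gam k * ((if j = k then (1 : ℂ) else 0) •
        (1 : Matrix (Fin 2) (Fin 2) ℂ) + (1 / 3 : ℂ) • (gam k * gam j))) i m := rfl
    rw [this, mul_add, mul_smul_comm, mul_smul_comm, mul_one]
  rw [Matrix.sum_apply]
  simp only [h]
  rw [← Matrix.sum_apply, Finset.sum_add_distrib, ← Finset.smul_sum, sum_gam_gam]
  simp

/-- The local model of the solution. -/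
def psi (f : E3 → ℝ) (x : E3) : Matrix (Fin 2) J8 ℂ :=
  fromCols ((f x : ℂ) • BB x) (((1 - f x : ℝ) : ℂ) • (1 : Matrix (Fin 2) (Fin 2) ℂ))

/-- The matrix `(BB x, -1)`. -/
def theta (x : E3) : Matrix (Fin 2) J8 ℂ := fromCols (BB x) (-1)

lemma psi_mul_star (f : E3 → ℝ) (x : E3) : psi f x * (psi f x)ᴴ =
    ((2 / 3 * r2 x * f x ^ 2 + (1 - f x) ^ 2 : ℝ) : ℂ) • (1 : Matrix (Fin 2) (Fin 2) ℂ) := by
  unfold psi
  rw [conjTranspose_fromCols_eq_fromRows_conjTranspose, fromCols_mul_fromRows,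
    conjTranspose_smul, conjTranspose_smul, Matrix.smul_mul, Matrix.mul_smul, BB_mul_star,
    Matrix.smul_mul, Matrix.mul_smul]
  simp only [Complex.star_def, Complex.conj_ofReal, conjTranspose_one, mul_one, smul_smul]
  rw [← add_smul]
  congr 1
  push_cast
  ring

lemma theta_mul_star (f : E3 → ℝ) (x : E3) : theta x * (psi f x)ᴴ =
    ((2 / 3 * r2 x * f x - (1 - f x) : ℝ) : ℂ) • (1 : Matrix (Fin 2) (Fin 2) ℂ) := by
  unfold psi theta
  rw [conjTranspose_fromCols_eq_fromRows_conjTranspose, fromCols_mul_fromRows,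
    conjTranspose_smul, conjTranspose_smul, Matrix.mul_smul, BB_mul_star, Matrix.mul_smul]
  simp only [Complex.star_def, Complex.conj_ofReal, conjTranspose_one, mul_one, smul_smul]
  rw [smul_neg, ← neg_smul, ← add_smul]
  congr 1
  push_cast
  ring

/-- The gradient. -/
def grad (f : E3 → ℝ) (x : E3) : Fin 3 → ℝ := fun k => fderiv ℝ f x (Pi.single k 1)

lemma pd_psi {f : E3 → ℝ} {x : E3} (hf : DifferentiableAt ℝ f x) (k : Fin 3) :
    pd k (psi f) x = (grad f x k : ℂ) • theta x + (f x : ℂ) • fromCols (KB k) 0 := by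
  ext i p
  rcases p with p | m
  · obtain ⟨L, hL⟩ : ∃ L : E3 →L[ℝ] ℂ, ∀ y, L y = ∑ l, (y l : ℂ) * KB l i p :=
      ⟨∑ l, (ContinuousLinearMap.proj l : E3 →L[ℝ] ℝ).smulRight (KB l i p), fun y => by simp⟩
    have h1 : (fun y => psi f y i (Sum.inl p)) = fun y => f y • L y := by
      ext y
      simp only [psi, fromCols_apply_inl, Matrix.smul_apply, BB_eq, smul_eq_mul,
        Complex.real_smul, hL]
    have h2 : HasFDerivAt (fun y => f y • L y) (f x • L + (fderiv ℝ f x).smulRight (L x)) x :=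
      hf.hasFDerivAt.smul (L.hasFDerivAt (x := x))
    have h3 : L (Pi.single k 1) = KB k i p := by
      rw [hL, Finset.sum_eq_single k]
      · simp
      · intro b _ hb
        simp [hb]
      · simp
    simp only [pd, Matrix.of_apply]
    rw [h1, h2.fderiv]
    simp only [Matrix.add_apply, Matrix.smul_apply, theta, fromCols_apply_inl, BB_eq,
      _root_.add_apply, _root_.smul_apply, ContinuousLinearMap.smulRight_apply, smul_eq_mul, Complex.real_smul, grad, h3, hL]
    rw [add_comm]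
  · have h1 : (fun y => psi f y i (Sum.inr m)) =
        fun y => (1 - f y) • ((1 : Matrix (Fin 2) (Fin 2) ℂ) i m) := by
      ext y
      simp only [psi, fromCols_apply_inr, Matrix.smul_apply, smul_eq_mul, Complex.real_smul]
    have h2 := (hf.hasFDerivAt.const_sub 1).smul_const ((1 : Matrix (Fin 2) (Fin 2) ℂ) i m)
    simp only [pd, Matrix.of_apply]
    rw [h1, h2.fderiv]
    simp [theta, grad]

lemma sum_gam_pd {f : E3 → ℝ} {x : E3} (hf : DifferentiableAt ℝ f x) :
    ∑ k, gam k * pd k (psi f) x = cl (grad f x) * theta x := by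
  have h : ∀ k, gam k * pd k (psi f) x = ((grad f x k : ℂ) • gam k) * theta x +
      (f x : ℂ) • fromCols (gam k * KB k) 0 := by
    intro k
    rw [pd_psi hf, Matrix.mul_add, Matrix.mul_smul, Matrix.mul_smul, mul_fromCols,
      Matrix.mul_zero, Matrix.smul_mul]
  simp only [h, Finset.sum_add_distrib, ← Finset.smul_sum, ← Matrix.sum_mul]
  have h2 : ∑ k, fromCols (gam k * KB k) (0 : Matrix (Fin 2) (Fin 2) ℂ) = 0 := by
    have := sum_gam_KB
    ext i p
    rcases p with p | m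
    · have h3 := congrFun (congrFun this i) p
      rw [Matrix.sum_apply] at h3
      rw [Matrix.sum_apply]
      simpa using h3
    · simp [Matrix.sum_apply]
  rw [h2, smul_zero, add_zero]
  rfl

/-- `lam` is the number with `psi psi* = lam`. -/
def lam (f : E3 → ℝ) (x : E3) : ℝ := 2 / 3 * r2 x * f x ^ 2 + (1 - f x) ^ 2

/-- `kap` is the number with `theta psi* = kap`. -/
def kap (f : E3 → ℝ) (x : E3) : ℝ := 2 / 3 * r2 x * f x - (1 - f x)

/-- The connection matrices for the local model. -/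
def con (f : E3 → ℝ) (k : Fin 3) (x : E3) : Matrix J8 J8 ℂ :=
  conn (psi f x) (theta x) (lam f x) (kap f x) (grad f x) k

lemma dirac_local {f : E3 → ℝ} {x : E3} (hf : DifferentiableAt ℝ f x) (hl : lam f x ≠ 0) :
    ∑ k, gam k * (pd k (psi f) x - psi f x * con f k x) = 0 := by
  simp only [Matrix.mul_sub, Finset.sum_sub_distrib]
  rw [sum_gam_pd hf]
  unfold con
  rw [conn_spec (lam := lam f x) (kap := kap f x) (grad f x) hl (psi_mul_star f x)
    (theta_mul_star f x), sub_self]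

/-! ## Smoothness -/

/-- Entrywise smoothness at a point. -/
def SmoothAt {α β : Type*} (F : E3 → Matrix α β ℂ) (x : E3) : Prop :=
  ∀ i j, ContDiffAt ℝ ∞ (fun y => F y i j) x

section Smooth

variable {α β δ : Type*} {x : E3}

lemma SmoothAt.add {F G : E3 → Matrix α β ℂ} (hF : SmoothAt F x) (hG : SmoothAt G x) :
    SmoothAt (fun y => F y + G y) x := fun i j => (hF i j).add (hG i j)

lemma SmoothAt.sub {F G : E3 → Matrix α β ℂ} (hF : SmoothAt F x) (hG : SmoothAt G x) :
    SmoothAt (fun y => F y - G y) x := fun i j => (hF i j).sub (hG i j)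

lemma SmoothAt.mul [Fintype β] {F : E3 → Matrix α β ℂ} {G : E3 → Matrix β δ ℂ}
    (hF : SmoothAt F x) (hG : SmoothAt G x) : SmoothAt (fun y => F y * G y) x := by
  intro i j
  simp only [Matrix.mul_apply]
  exact ContDiffAt.sum fun k _ => (hF i k).mul (hG k j)

lemma contDiffAt_ofReal {c : E3 → ℝ} (hc : ContDiffAt ℝ ∞ c x) :
    ContDiffAt ℝ ∞ (fun y => (c y : ℂ)) x :=
  Complex.ofRealCLM.contDiff.contDiffAt.comp x hc

lemma SmoothAt.smul {c : E3 → ℝ} {G : E3 → Matrix α β ℂ} (hc : ContDiffAt ℝ ∞ c x)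
    (hG : SmoothAt G x) : SmoothAt (fun y => (c y : ℂ) • G y) x :=
  fun i j => (contDiffAt_ofReal hc).mul (hG i j)

lemma SmoothAt.conj {F : E3 → Matrix α β ℂ} (hF : SmoothAt F x) :
    SmoothAt (fun y => (F y)ᴴ) x := fun i j =>
  (Complex.conjCLE.contDiff.contDiffAt).comp x (hF j i)

lemma smoothAt_const (M : Matrix α β ℂ) : SmoothAt (fun _ => M) x := fun _ _ => contDiffAt_const

lemma SmoothAt.sum {s : Finset δ} {F : δ → E3 → Matrix α β ℂ} (hF : ∀ k ∈ s, SmoothAt (F k) x) :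
    SmoothAt (fun y => ∑ k ∈ s, F k y) x := by
  intro i j
  simp only [Matrix.sum_apply]
  exact ContDiffAt.sum fun k hk => hF k hk i j

lemma SmoothAt.fromCols {F : E3 → Matrix α β ℂ} {G : E3 → Matrix α δ ℂ} (hF : SmoothAt F x)
    (hG : SmoothAt G x) : SmoothAt (fun y => Matrix.fromCols (F y) (G y)) x := by
  intro i j
  rcases j with j | j
  · exact hF i j
  · exact hG i j

lemma SmoothAt.congr {F G : E3 → Matrix α β ℂ} (hF : SmoothAt F x) (h : G =ᶠ[𝓝 x] F) :
    SmoothAt G x := fun i j =>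
  (hF i j).congr_of_eventuallyEq (h.mono fun y hy => by simp only [hy])

end Smooth

lemma smoothAt_BB (x : E3) : SmoothAt BB x := by
  intro i p
  simp only [BB_eq]
  exact ContDiffAt.sum fun k _ =>
    (contDiffAt_ofReal (contDiff_apply ℝ ℝ k).contDiffAt).mul contDiffAt_const

lemma smoothAt_psi {f : E3 → ℝ} {x : E3} (hf : ContDiffAt ℝ ∞ f x) : SmoothAt (psi f) x :=
  ((smoothAt_BB x).smul hf).fromCols ((smoothAt_const _).smul (contDiffAt_const.sub hf))

lemma smoothAt_theta (x : E3) : SmoothAt theta x :=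
  (smoothAt_BB x).fromCols (smoothAt_const _)

lemma contDiffAt_grad {f : E3 → ℝ} {x : E3} (hf : ContDiffAt ℝ ∞ f x) (k : Fin 3) :
    ContDiffAt ℝ ∞ (fun y => grad f y k) x :=
  (hf.fderiv_right (m := ∞) (by simp)).clm_apply contDiffAt_const

lemma contDiffAt_r2 (x : E3) : ContDiffAt ℝ ∞ r2 x :=
  ContDiffAt.sum fun k _ => ((contDiff_apply ℝ ℝ k).contDiffAt).pow 2

lemma contDiffAt_lam {f : E3 → ℝ} {x : E3} (hf : ContDiffAt ℝ ∞ f x) :
    ContDiffAt ℝ ∞ (lam f) x :=
  ((contDiffAt_const.mul (contDiffAt_r2 x)).mul (hf.pow 2)).add ((contDiffAt_const.sub hf).pow 2)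

lemma contDiffAt_kap {f : E3 → ℝ} {x : E3} (hf : ContDiffAt ℝ ∞ f x) :
    ContDiffAt ℝ ∞ (kap f) x :=
  ((contDiffAt_const.mul (contDiffAt_r2 x)).mul hf).sub (contDiffAt_const.sub hf)

lemma smoothAt_cl {f : E3 → ℝ} {x : E3} (hf : ContDiffAt ℝ ∞ f x) :
    SmoothAt (fun y => cl (grad f y)) x :=
  SmoothAt.sum fun k _ => (smoothAt_const _).smul (contDiffAt_grad hf k)

lemma smoothAt_con {f : E3 → ℝ} {x : E3} (hf : ContDiffAt ℝ ∞ f x) (hl : lam f x ≠ 0)
    (k : Fin 3) : SmoothAt (con f k) x := by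
  have hcl := smoothAt_cl hf
  have hsp : SmoothAt (fun y => spin k (grad f y)) x := by
    intro i j
    exact contDiffAt_const.mul ((((smoothAt_const (gam k)).mul hcl).sub
      (hcl.mul (smoothAt_const (gam k)))) i j)
  have hkl : ContDiffAt ℝ ∞ (fun y => kap f y / lam f y) x :=
    (contDiffAt_kap hf).div (contDiffAt_lam hf) hl
  have hT : SmoothAt (fun y => gam k * cl (grad f y) *
      (theta y - ((kap f y / lam f y : ℝ) : ℂ) • psi f y)) x :=
    ((smoothAt_const (gam k)).mul hcl).mul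
      ((smoothAt_theta x).sub ((smoothAt_psi hf).smul hkl))
  have h1 : ContDiffAt ℝ ∞ (fun y => kap f y / lam f y ^ 2) x :=
    (contDiffAt_kap hf).div ((contDiffAt_lam hf).pow 2) (pow_ne_zero 2 hl)
  have h2 : ContDiffAt ℝ ∞ (fun y => 1 / (3 * lam f y)) x :=
    contDiffAt_const.div (contDiffAt_const.mul (contDiffAt_lam hf)) (by simpa using hl)
  exact ((((smoothAt_psi hf).conj.mul hsp).mul (smoothAt_psi hf)).smul h1).sub
    (((((smoothAt_psi hf).conj.mul hT)).sub (hT.conj.mul (smoothAt_psi hf))).smul h2)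

lemma con_eq_zero {f : E3 → ℝ} {x : E3} (h : grad f x = 0) (k : Fin 3) : con f k x = 0 := by
  have hc : cl (grad f x) = 0 := by
    rw [h]
    simp [cl]
  unfold con conn spin
  rw [hc]
  simp

/-! ## The cut-off function -/

/-- A smooth bump function, equal to one on the ball of radius `1/8` (for the supremum norm) and
zero outside the ball of radius `1/4`. -/
def bump : ContDiffBump (0 : E3) := ⟨1 / 8, 1 / 4, by norm_num, by norm_num⟩

/-- The cut-off function. -/
def ff (x : E3) : ℝ := bump x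

lemma contDiff_ff : ContDiff ℝ ∞ ff := bump.contDiff

lemma ff_one {x : E3} (h : ‖x‖ ≤ 1 / 8) : ff x = 1 :=
  bump.one_of_mem_closedBall (by simpa [bump] using h)

lemma ff_zero {x : E3} (h : 1 / 4 ≤ ‖x‖) : ff x = 0 :=
  bump.zero_of_le_dist (by simpa [bump] using h)

lemma grad_ff_zero {x : E3} (h : ‖x‖ < 1 / 8 ∨ 1 / 4 < ‖x‖) : grad ff x = 0 := by
  have h1 : fderiv ℝ ff x = 0 := by
    rcases h with h | h
    · have h2 : ff =ᶠ[𝓝 x] fun _ => 1 := by
        filter_upwards [(continuous_norm.tendsto x).eventually_lt_const h] with y hy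
        exact ff_one hy.le
      rw [h2.fderiv_eq]
      simp
    · have h2 : ff =ᶠ[𝓝 x] fun _ => 0 := by
        filter_upwards [(continuous_norm.tendsto x).eventually_const_lt h] with y hy
        exact ff_zero hy.le
      rw [h2.fderiv_eq]
      simp
  ext k
  simp [grad, h1]

lemma r2_pos {x : E3} (h : x ≠ 0) : 0 < r2 x := by
  obtain ⟨i, hi⟩ := Function.ne_iff.1 h
  have h1 : 0 < x i ^ 2 := by
    have : x i ≠ 0 := hi
    positivity
  exact lt_of_lt_of_le h1 (Finset.single_le_sum (f := fun k => x k ^ 2)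
    (fun k _ => sq_nonneg _) (Finset.mem_univ i))

lemma lam_pos {x : E3} (h : x ≠ 0) : 0 < lam ff x := by
  have h1 := r2_pos h
  unfold lam
  by_cases h2 : ff x = 0
  · rw [h2]
    norm_num
  · have : 0 < ff x ^ 2 := by positivity
    positivity

lemma lam_zero : lam ff 0 = 0 := by
  have : ff 0 = 1 := ff_one (by simp)
  simp [lam, r2, this]

lemma smoothAt_con_ff (k : Fin 3) (x : E3) : SmoothAt (con ff k) x := by
  by_cases h : x = 0
  · subst h
    refine (smoothAt_const (0 : Matrix J8 J8 ℂ)).congr ?_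
    have h0 : ‖(0 : E3)‖ < 1 / 8 := by simp
    filter_upwards [(continuous_norm.tendsto (0 : E3)).eventually_lt_const h0] with y hy
    exact con_eq_zero (grad_ff_zero (Or.inl hy)) k
  · exact smoothAt_con contDiff_ff.contDiffAt (lam_pos h).ne' k

/-! ## Periodization -/

/-- The nearest lattice point. -/
def rnd (x : E3) : E3 := fun i => (round (x i) : ℝ)

/-- The difference of `x` and the nearest lattice point. -/
def fr (x : E3) : E3 := x - rnd x

lemma fr_periodic : Periodic3 fr := by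
  intro x m
  ext i
  simp [fr, rnd, round_add_intCast]

lemma rnd_eq_of_lt {x y : ℝ} (h : |y - round x| < 1 / 2) : round y = round x := by
  rw [round_eq, Int.floor_eq_iff]
  rw [abs_lt] at h
  constructor <;> linarith [h.1, h.2]

lemma eventually_fr {α : Type*} {F : E3 → α} {c : α} (hF : ∀ x, 1 / 4 < ‖x‖ → F x = c) (x₀ : E3) :
    (fun x => F (fr x)) =ᶠ[𝓝 x₀] fun x => F (x - rnd x₀) := by
  by_cases h : ∀ i, |x₀ i - round (x₀ i)| < 1 / 2
  · have h1 : ∀ᶠ x : E3 in 𝓝 x₀, ∀ i, |x i - (round (x₀ i) : ℝ)| < 1 / 2 := by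
      rw [eventually_all]
      intro i
      have hc : Continuous fun x : E3 => |x i - (round (x₀ i) : ℝ)| := by fun_prop
      exact (hc.tendsto x₀).eventually_lt_const (h i)
    filter_upwards [h1] with x hx
    have : rnd x = rnd x₀ := by
      ext i
      simp only [rnd]
      rw [rnd_eq_of_lt (hx i)]
    simp only [fr, this]
  · push Not at h
    obtain ⟨i, hi⟩ := h
    have hm : ∀ m : ℤ, 1 / 2 ≤ |x₀ i - m| := fun m => hi.trans (round_le (x₀ i) m)
    have h1 : ∀ᶠ x in 𝓝 x₀, |x i - x₀ i| < 1 / 8 := by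
      have hc : Continuous fun x : E3 => |x i - x₀ i| := by fun_prop
      exact (hc.tendsto x₀).eventually_lt_const (by simp)
    filter_upwards [h1] with x hx
    have h2 : ∀ m : ℤ, 1 / 4 < |x i - m| := by
      intro m
      have h3 : |x₀ i - m| ≤ |x i - m| + |x i - x₀ i| := by
        have h4 : x₀ i - m = (x i - m) - (x i - x₀ i) := by ring
        rw [h4]
        exact abs_sub _ _
      linarith [hm m]
    rw [hF, hF]
    · exact lt_of_lt_of_le (h2 (round (x₀ i))) (norm_le_pi_norm (x - rnd x₀) i)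
    · exact lt_of_lt_of_le (h2 (round (x i))) (norm_le_pi_norm (fr x) i)

lemma smoothAt_fr {α β : Type*} {F : E3 → Matrix α β ℂ} {c : Matrix α β ℂ}
    (hF : ∀ x, 1 / 4 < ‖x‖ → F x = c) (x : E3) (hs : SmoothAt F (fr x)) :
    SmoothAt (fun y => F (fr y)) x := by
  refine SmoothAt.congr (F := fun y => F (y - rnd x)) ?_ (eventually_fr hF x)
  intro i j
  have h1 : ContDiffAt ℝ ∞ (fun y => F y i j) (x - rnd x) := hs i j
  exact h1.comp x (contDiffAt_id.sub contDiffAt_const)

lemma pd_fr {α β : Type*} {F : E3 → Matrix α β ℂ} {c : Matrix α β ℂ}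
    (hF : ∀ x, 1 / 4 < ‖x‖ → F x = c) (k : Fin 3) (x : E3) :
    pd k (fun y => F (fr y)) x = pd k F (fr x) := by
  ext i j
  simp only [pd, Matrix.of_apply]
  have h1 : (fun y => F (fr y) i j) =ᶠ[𝓝 x] fun y => (fun z => F z i j) (y - rnd x) :=
    (eventually_fr hF x).mono fun y hy => by simp only [hy]
  have h2 := fderiv_comp_sub (𝕜 := ℝ) (f := fun z => F z i j) (x := x) (rnd x)
  rw [h1.fderiv_eq, h2]
  rfl

lemma psi_const {x : E3} (h : 1 / 4 < ‖x‖) : psi ff x = fromCols 0 1 := by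
  unfold psi
  rw [ff_zero h.le]
  simp

lemma con_const (k : Fin 3) {x : E3} (h : 1 / 4 < ‖x‖) : con ff k x = 0 :=
  con_eq_zero (grad_ff_zero (Or.inr h)) k

/-- The blow-up set: the lattice points. -/
def ZZ : Set E3 := {x | fr x = 0}

lemma mem_ZZ {x : E3} : x ∈ ZZ ↔ ∀ i, ∃ m : ℤ, (m : ℝ) = x i := by
  constructor
  · intro h i
    refine ⟨round (x i), ?_⟩
    have : fr x i = 0 := by
      rw [show fr x = 0 from h]
      rfl
    simp only [fr, rnd, Pi.sub_apply] at this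
    linarith
  · intro h
    show fr x = 0
    ext i
    obtain ⟨m, hm⟩ := h i
    simp [fr, rnd, ← hm]

lemma isClosed_ZZ : IsClosed ZZ := by
  have : ZZ = ⋂ i, (fun x : E3 => x i) ⁻¹' (range ((↑) : ℤ → ℝ)) := by
    ext x
    rw [mem_ZZ]
    simp
  rw [this]
  exact isClosed_iInter fun i =>
    (Int.isClosedEmbedding_coe_real.isClosed_range).preimage (continuous_apply i)

lemma interior_ZZ : interior ZZ = ∅ := by
  rw [interior_eq_empty_iff_dense_compl]
  refine Set.Countable.dense_compl ℝ ?_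
  have : ZZ ⊆ range (fun m : Fin 3 → ℤ => fun i => (m i : ℝ)) := by
    intro x hx
    rw [mem_ZZ] at hx
    choose m hm using hx
    exact ⟨m, funext hm⟩
  exact (countable_range _).mono this

/-- The square of the pointwise norm of the solution, up to a constant factor. -/
def dens (x : E3) : ℝ := 2 * lam ff (fr x)

lemma dens_nonneg (x : E3) : 0 ≤ dens x := by
  unfold dens
  by_cases h : fr x = 0
  · rw [h, lam_zero]
    simp
  · have := lam_pos h
    linarith

lemma dens_eq_zero {x : E3} : dens x = 0 ↔ x ∈ ZZ := by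
  unfold dens
  constructor
  · intro h
    by_contra h2
    have := lam_pos (x := fr x) h2
    linarith
  · intro h
    rw [show fr x = 0 from h, lam_zero]
    simp

lemma continuous_dens : Continuous dens := by
  rw [continuous_iff_continuousAt]
  intro x
  have h1 : ∀ y, 1 / 4 < ‖y‖ → lam ff y = 1 := by
    intro y hy
    simp [lam, ff_zero hy.le]
  have h2 : ContinuousAt (fun y => 2 * lam ff (y - rnd x)) x := by
    have h3 : Continuous (lam ff) := by
      rw [continuous_iff_continuousAt]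
      exact fun y => (contDiffAt_lam contDiff_ff.contDiffAt).continuousAt
    exact (continuous_const.mul (h3.comp (continuous_id.sub continuous_const))).continuousAt
  refine h2.congr ?_
  have h4 := eventually_fr h1 x
  filter_upwards [h4] with y hy
  show 2 * lam ff (y - rnd x) = 2 * lam ff (fr y)
  have hy' : lam ff (fr y) = lam ff (y - rnd x) := hy
  rw [hy']

/-- The total mass. -/
def mass : ℝ := ∫ x in Icc (0 : E3) 1, dens x

lemma mass_pos : 0 < mass := by
  unfold mass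
  have hc : IsCompact (Icc (0 : E3) 1) := by
    rw [← pi_univ_Icc]
    exact isCompact_univ_pi fun _ => isCompact_Icc
  have hint : IntegrableOn dens (Icc (0 : E3) 1) := continuous_dens.continuousOn.integrableOn_compact hc
  rw [setIntegral_pos_iff_support_of_nonneg_ae (ae_of_all _ dens_nonneg) hint]
  have h1 : (univ.pi fun _ : Fin 3 => Ioo (0 : ℝ) 1) ⊆ Function.support dens ∩ Icc (0 : E3) 1 := by
    intro x hx
    refine ⟨?_, ?_⟩
    · intro h
      rw [dens_eq_zero, mem_ZZ] at h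
      obtain ⟨m, hm⟩ := h 0
      have h2 := hx 0 (mem_univ _)
      rw [← hm] at h2
      have h3 : (0 : ℝ) < m := h2.1
      have h4 : (m : ℝ) < 1 := h2.2
      have h5 : 0 < m := by exact_mod_cast h3
      have h6 : m < 1 := by exact_mod_cast h4
      omega
    · exact ⟨fun i => (hx i (mem_univ i)).1.le, fun i => (hx i (mem_univ i)).2.le⟩
  refine lt_of_lt_of_le ?_ (measure_mono h1)
  rw [volume_pi_pi]
  simp

/-- The normalization factor. -/
def tt : ℝ := 1 / Real.sqrt mass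

lemma tt_pos : 0 < tt := by
  have := Real.sqrt_pos.2 mass_pos
  unfold tt
  positivity

/-- The solution. -/
def Psi (x : E3) : Matrix (Fin 2) J8 ℂ := (tt : ℂ) • psi ff (fr x)

/-- The connection on the bundle of rank eight. -/
def Con (k : Fin 3) (x : E3) : Matrix J8 J8 ℂ := con ff k (fr x)

lemma isConnection_Con : IsConnection Con where
  smooth k i j := by
    rw [contDiff_iff_contDiffAt]
    intro x
    exact smoothAt_fr (fun x hx => con_const k hx) x (smoothAt_con_ff k _) i j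
  periodic k x m := by
    show con ff k (fr _) = con ff k (fr x)
    rw [fr_periodic]
  skew k x := conn_star _ _ _ _ _ _
  trace k x := by
    show (con ff k (fr x)).trace = 0
    by_cases h : fr x = 0
    · rw [con_eq_zero (grad_ff_zero (Or.inl (by rw [h]; simp)))]
      simp
    · exact conn_trace (grad ff (fr x)) (lam_pos h).ne' (psi_mul_star ff _)
        (theta_mul_star ff _) k

lemma Psi_mul_star (x : E3) : Psi x * (Psi x)ᴴ =
    ((tt ^ 2 * lam ff (fr x) : ℝ) : ℂ) • (1 : Matrix (Fin 2) (Fin 2) ℂ) := by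
  unfold Psi
  rw [conjTranspose_smul, Matrix.smul_mul, Matrix.mul_smul, psi_mul_star]
  simp only [Complex.star_def, Complex.conj_ofReal, smul_smul, lam]
  congr 1
  push_cast
  ring

lemma nrm_sq (M : Matrix (Fin 2) J8 ℂ) : ((nrm M ^ 2 : ℝ) : ℂ) = (M * Mᴴ).trace := by
  unfold nrm
  rw [Real.sq_sqrt (by positivity)]
  simp only [Matrix.trace, Matrix.diag_apply, Matrix.mul_apply, Matrix.conjTranspose_apply]
  push_cast
  refine Finset.sum_congr rfl fun i _ => Finset.sum_congr rfl fun j _ => ?_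
  rw [Complex.star_def, Complex.mul_conj, Complex.normSq_eq_norm_sq]
  push_cast
  rfl

lemma nrm_Psi_sq (x : E3) : nrm (Psi x) ^ 2 = tt ^ 2 * dens x := by
  have h := nrm_sq (Psi x)
  rw [Psi_mul_star] at h
  simp only [trace_smul, trace_one, Fintype.card_fin] at h
  have h2 : ((nrm (Psi x) ^ 2 : ℝ) : ℂ) = ((tt ^ 2 * dens x : ℝ) : ℂ) := by
    rw [h, dens]
    push_cast
    rw [smul_eq_mul]
    ring
  exact_mod_cast h2

lemma nrm_nonneg (M : Matrix (Fin 2) J8 ℂ) : 0 ≤ nrm M := Real.sqrt_nonneg _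

lemma nrm_Psi (x : E3) : nrm (Psi x) = tt * Real.sqrt (dens x) := by
  have h := nrm_Psi_sq x
  have h1 : (tt * Real.sqrt (dens x)) ^ 2 = tt ^ 2 * dens x := by
    rw [mul_pow, Real.sq_sqrt (dens_nonneg x)]
  rw [← h1] at h
  exact (pow_left_inj₀ (nrm_nonneg _) (mul_nonneg tt_pos.le (Real.sqrt_nonneg _)) two_ne_zero).1 h

lemma isSolution : IsSolution Con (fun _ _ => 0) Psi ZZ where
  closed := isClosed_ZZ
  nowhereDense := interior_ZZ
  periodic_Z x m := by
    show (fr _ = 0) = (fr x = 0)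
    rw [fr_periodic]
  smooth_A _ := contDiffOn_const
  periodic_A _ _ _ := rfl
  smooth i j := by
    refine ContDiff.contDiffOn ?_
    rw [contDiff_iff_contDiffAt]
    intro x
    have h := smoothAt_fr (fun x hx => psi_const hx) x (smoothAt_psi (x := fr x)
      contDiff_ff.contDiffAt)
    exact contDiffAt_const.mul (h i j)
  periodic x m := by
    show (tt : ℂ) • psi ff (fr _) = (tt : ℂ) • psi ff (fr x)
    rw [fr_periodic]
  dirac_eq x hx := by
    have h0 : fr x ≠ 0 := hx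
    have h1 : ∀ k, pd k Psi x = (tt : ℂ) • pd k (psi ff) (fr x) := by
      intro k
      rw [← pd_fr (fun x hx => psi_const hx) k x]
      ext i j
      simp only [pd, Matrix.of_apply, Matrix.smul_apply, smul_eq_mul]
      have h2 : (fun y => Psi y i j) = fun y => (tt : ℂ) * (psi ff (fr y) i j) := rfl
      rw [h2, fderiv_const_mul]
      · rfl
      · have h := smoothAt_fr (fun x hx => psi_const hx) x (smoothAt_psi (x := fr x)
          contDiff_ff.contDiffAt)
        exact (h i j).differentiableAt (by simp)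
    unfold dirac
    have h3 : ∀ k, gam k * (pd k Psi x + (Complex.I * ((0 : ℝ) : ℂ)) • Psi x - Psi x * Con k x) =
        (tt : ℂ) • (gam k * (pd k (psi ff) (fr x) - psi ff (fr x) * con ff k (fr x))) := by
      intro k
      rw [h1]
      simp only [Psi, Con, Complex.ofReal_zero, mul_zero, zero_smul, add_zero, Matrix.smul_mul]
      rw [← smul_sub, Matrix.mul_smul]
    simp only [h3, ← Finset.smul_sum]
    rw [dirac_local (contDiff_ff.contDiffAt.differentiableAt (by simp)) (lam_pos h0).ne',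
      smul_zero]
  mu_eq x hx := by
    rw [Psi_mul_star, nrm_Psi_sq, dens]
    congr 2
    ring
  extends_norm := by
    refine ⟨fun x => nrm (Psi x), ?_, ?_, fun _ _ => rfl, ?_, ?_⟩
    · have : (fun x => nrm (Psi x)) = fun x => tt * Real.sqrt (dens x) := funext nrm_Psi
      rw [this]
      exact continuous_const.mul (Real.continuous_sqrt.comp continuous_dens)
    · intro x m
      show nrm ((tt : ℂ) • psi ff (fr _)) = nrm ((tt : ℂ) • psi ff (fr x))
      rw [fr_periodic]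
    · intro x
      show nrm (Psi x) = 0 ↔ x ∈ ZZ
      rw [nrm_Psi, mul_eq_zero, Real.sqrt_eq_zero (dens_nonneg x), dens_eq_zero]
      simp [tt_pos.ne']
    · simp only [nrm_Psi_sq]
      rw [integral_const_mul]
      show tt ^ 2 * mass = 1
      have h := mass_pos
      unfold tt
      rw [div_pow, one_pow, Real.sq_sqrt h.le]
      field_simp

/-! ## The kernel map does not extend -/

/-- A vector in the kernel of `Psi` along the first axis, but not along the second axis. -/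
def vv : J8 → ℂ := Sum.elim (fun p => (![![0, 0], ![0, -1], ![-Complex.I, 0]] p.1 : Fin 2 → ℂ) p.2) 0

/-- The `2 × 8` matrix `(BB x, 0)`. -/
def B0 (x : E3) : Matrix (Fin 2) J8 ℂ := fromCols (BB x) 0

lemma B0_vv_0 : B0 (Pi.single 0 1) *ᵥ vv = 0 := by
  ext i
  fin_cases i <;>
    simp [B0, BB, Bm, cl, gam, vv, Matrix.mulVec, dotProduct,
      Fintype.sum_prod_type, Fin.sum_univ_three, Pi.single_apply]

lemma B0_vv_1 : B0 (Pi.single 1 1) *ᵥ vv ≠ 0 := by
  intro h
  have h1 := congrFun h 1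
  simp [B0, BB, Bm, cl, gam, vv, Matrix.mulVec, dotProduct,
    Fintype.sum_prod_type, Fin.sum_univ_three, Pi.single_apply] at h1
  rw [mul_assoc, Complex.I_mul_I] at h1
  norm_num at h1

lemma BB_smul (s : ℝ) (x : E3) : BB (s • x) = (s : ℂ) • BB x := by
  ext i p
  simp only [BB_eq, Matrix.smul_apply, smul_eq_mul, Finset.mul_sum, Pi.smul_apply]
  refine Finset.sum_congr rfl fun k _ => ?_
  push_cast
  ring

lemma Psi_small {s : ℝ} (hs : 0 < s) (hs2 : s < 1 / 8) (j : Fin 3) :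
    Psi (s • Pi.single j 1) = ((tt * s : ℝ) : ℂ) • B0 (Pi.single j 1) := by
  have h1 : ∀ i, |(s • (Pi.single j 1 : E3)) i| < 1 / 8 := by
    intro i
    by_cases h : i = j
    · subst h
      simp only [Pi.smul_apply, Pi.single_eq_same, smul_eq_mul, mul_one]
      rw [abs_of_pos hs]
      exact hs2
    · simp [h]
  have h2 : fr (s • Pi.single j 1) = s • Pi.single j 1 := by
    have : rnd (s • (Pi.single j 1 : E3)) = 0 := by
      ext i
      have h3 := h1 i
      have h4 : round ((s • (Pi.single j 1 : E3)) i) = 0 := by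
        rw [round_eq, Int.floor_eq_iff]
        rw [abs_lt] at h3
        push_cast
        constructor <;> linarith [h3.1, h3.2]
      simp only [rnd]
      rw [h4]
      simp
    simp [fr, this]
  have h3 : ‖(s • Pi.single j 1 : E3)‖ ≤ 1 / 8 := by
    rw [pi_norm_le_iff_of_nonneg (by norm_num)]
    exact fun i => (h1 i).le
  unfold Psi
  rw [h2]
  unfold psi B0
  rw [ff_one h3, BB_smul]
  ext i p
  rcases p with p | m
  · simp
    ring
  · simp

lemma not_mem_ZZ {s : ℝ} (hs : 0 < s) (hs2 : s < 1 / 8) (j : Fin 3) :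
    s • (Pi.single j 1 : E3) ∉ ZZ := by
  rw [mem_ZZ]
  intro h
  obtain ⟨m, hm⟩ := h j
  simp only [Pi.smul_apply, Pi.single_eq_same, smul_eq_mul, mul_one] at hm
  have h3 : (0 : ℝ) < m := by rw [hm]; exact hs
  have h4 : (m : ℝ) < 1 := by rw [hm]; linarith
  have h5 : 0 < m := by exact_mod_cast h3
  have h6 : m < 1 := by exact_mod_cast h4
  omega

lemma not_extends : ¬ KernelMapExtends Psi ZZ := by
  rintro ⟨P, hP, -, hG, hker⟩
  have hlim : ∀ j : Fin 3, Tendsto (fun s : ℝ => P (s • (Pi.single j 1 : E3))) (𝓝[>] 0)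
      (𝓝 (P 0)) := by
    intro j
    have hc : Continuous fun s : ℝ => P (s • (Pi.single j 1 : E3)) :=
      hP.comp (continuous_id.smul continuous_const)
    have := (hc.tendsto 0).mono_left (nhdsWithin_le_nhds (s := Ioi (0 : ℝ)))
    simpa using this
  have hlimv : ∀ j : Fin 3, Tendsto (fun s : ℝ => P (s • (Pi.single j 1 : E3)) *ᵥ vv) (𝓝[>] 0)
      (𝓝 (P 0 *ᵥ vv)) := by
    intro j
    have hc : Continuous fun M : Matrix J8 J8 ℂ => M *ᵥ vv :=
      continuous_id.matrix_mulVec continuous_const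
    exact (hc.tendsto _).comp (hlim j)
  have hsmall : ∀ᶠ s : ℝ in 𝓝[>] 0, 0 < s ∧ s < 1 / 8 := by
    have : Ioo (0 : ℝ) (1 / 8) ∈ 𝓝[>] (0 : ℝ) := Ioo_mem_nhdsGT (by norm_num)
    exact this
  have h0 : P 0 *ᵥ vv = vv := by
    refine tendsto_nhds_unique (hlimv 0) (tendsto_const_nhds.congr' ?_)
    filter_upwards [hsmall] with s hs
    refine ((hker _ (not_mem_ZZ hs.1 hs.2 0) vv).1 ?_).symm
    rw [Psi_small hs.1 hs.2, Matrix.smul_mulVec, B0_vv_0, smul_zero]
  have h1 : B0 (Pi.single 1 1) *ᵥ vv = 0 := by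
    have hc : Continuous fun v : J8 → ℂ => B0 (Pi.single 1 1) *ᵥ v :=
      continuous_const.matrix_mulVec continuous_id
    have h2 := (hc.tendsto _).comp (hlimv 1)
    rw [h0] at h2
    refine tendsto_nhds_unique h2 (tendsto_const_nhds.congr' ?_)
    filter_upwards [hsmall] with s hs
    show 0 = B0 (Pi.single 1 1) *ᵥ (P (s • (Pi.single 1 1 : E3)) *ᵥ vv)
    have h3 := (hker _ (not_mem_ZZ hs.1 hs.2 1) (P (s • (Pi.single 1 1 : E3)) *ᵥ vv)).2 (by
      rw [Matrix.mulVec_mulVec, (hG _).idem])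
    rw [Psi_small hs.1 hs.2, Matrix.smul_mulVec] at h3
    have h4 : ((tt * s : ℝ) : ℂ) ≠ 0 := by
      have := mul_pos tt_pos hs.1
      exact_mod_cast this.ne'
    exact ((smul_eq_zero.1 h3).resolve_left h4).symm
  exact B0_vv_1 h1

/-- On the flat torus `ℝ³ / ℤ³`, for the trivial line bundle `L` and the trivial bundle `E` of some
rank `n > 2`, there are an `SU(n)`-connection `B` on `E` and a solution `(A, Ψ, 0)` over `M \ Z`
whose kernel map has no continuous extension to the torus. -/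
theorem result : ∃ (ι : Type) (_ : Fintype ι) (_ : DecidableEq ι), 2 < Fintype.card ι ∧
    ∃ (B : Fin 3 → E3 → Matrix ι ι ℂ) (A : Fin 3 → E3 → ℝ) (Ψ : E3 → Matrix (Fin 2) ι ℂ)
      (Z : Set E3), IsConnection B ∧ IsSolution B A Ψ Z ∧ ¬ KernelMapExtends Ψ Z :=
  ⟨J8, inferInstance, inferInstance, by simp [J8], Con, fun _ _ => 0, Psi, ZZ, isConnection_Con,
    isSolution, not_extends⟩

end Pool.Agent.Results.MP_92a303_gt.NoExtension
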